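import Pool.Agent.Y599.RB.Defs
import Pool.Agent.NPC.Dec
import Pool.Agent.H671R2.OrdNP2

/-!
# Red-blue cut problems are in `NP`
-/

namespace Pool.Agent.Y599.RB

open Pool.Agent.NPC Pool.Agent.NPC.R671 Pool.Agent.H671R2.Ord

/-- the matrix of a relation -/
noncomputable def relM {n : ℕ} (D : Fin n → Fin n → Prop) : List (List Bool) :=
  open Classical in List.ofFn fun i => List.ofFn fun j => decide (D i j)

theorem relM_adj {n : ℕ} (G : SimpleGraph (Fin n)) : adjMatrix G = relM G.Adj := rfl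

theorem relM_d {n : ℕ} (G : Digraph (Fin n)) : dMatrix G = relM G.Adj := rfl

theorem me_relM {n : ℕ} (D : Fin n → Fin n → Prop) (a b : Fin n) :
    me (relM D) a b = true ↔ D a b := by
  simp [me, relM, List.getD_eq_getElem?_getD]

theorem length_relM {n : ℕ} (D : Fin n → Fin n → Prop) : (relM D).length = n := by
  simp [relM]

/-- rows have the right length -/
def sq (M : List (List Bool)) : Bool := M.all (fun row => decide (row.length = M.length))

theorem sq_iff (M : List (List Bool)) :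
    sq M = true ↔ ∃ (n : ℕ) (D : Fin n → Fin n → Prop), relM D = M := by
  constructor
  · intro h
    simp only [sq, List.all_eq_true, decide_eq_true_eq] at h
    refine ⟨M.length, fun i j => me M i j = true, ?_⟩
    unfold relM
    apply List.ext_getElem
    · simp
    · intro i hi hi'
      rw [List.getElem_ofFn]
      apply List.ext_getElem
      · rw [List.length_ofFn, h _ (List.getElem_mem _)]
      · intro j hj hj'
        rw [List.getElem_ofFn]
        simp only [me, List.getD_eq_getElem?_getD]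
        rw [List.getElem?_eq_getElem hi', Option.getD_some, List.getElem?_eq_getElem hj',
          Option.getD_some, Bool.decide_eq_true]
  · rintro ⟨n, D, rfl⟩
    simp only [sq, List.all_eq_true, decide_eq_true_eq, length_relM]
    intro row hrow
    unfold relM at hrow
    rw [List.mem_ofFn] at hrow
    obtain ⟨i, rfl⟩ := hrow
    simp

/-- irreflexivity -/
def irr (M : List (List Bool)) : Bool := (List.range M.length).all (fun i => !(me M i i))

theorem irr_iff {n : ℕ} (D : Fin n → Fin n → Prop) : irr (relM D) = true ↔ ∀ i, ¬ D i i := by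
  simp only [irr, List.all_eq_true, List.mem_range, length_relM, Bool.not_eq_true']
  constructor
  · intro h i hi
    have h1 := h i i.isLt
    rw [← me_relM D, h1] at hi
    exact absurd hi (by simp)
  · intro h i hi
    have h1 := h ⟨i, hi⟩
    rw [← me_relM D] at h1
    simpa using h1

/-- no common entries -/
def dis (M N : List (List Bool)) : Bool :=
  (List.range M.length).all (fun i => (List.range M.length).all (fun j => !(me M i j && me N i j)))

theorem dis_iff {n : ℕ} (D D' : Fin n → Fin n → Prop) :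
    dis (relM D) (relM D') = true ↔ ∀ i j, ¬ (D i j ∧ D' i j) := by
  simp only [dis, List.all_eq_true, List.mem_range, length_relM, Bool.not_eq_true']
  constructor
  · intro h i j hij
    have h1 := h i i.isLt j j.isLt
    rw [(me_relM D i j).2 hij.1, (me_relM D' i j).2 hij.2] at h1
    exact absurd h1 (by simp)
  · intro h i hi j hj
    rw [Bool.eq_false_iff]
    intro h1
    rw [Bool.and_eq_true] at h1
    exact h ⟨i, hi⟩ ⟨j, hj⟩ ⟨(me_relM D ⟨i, hi⟩ ⟨j, hj⟩).1 h1.1, (me_relM D' ⟨i, hi⟩ ⟨j, hj⟩).1 h1.2⟩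

/-- the test for a pair -/
def ct (M : List (List Bool)) (w : List Bool) (p : ℕ × ℕ) : Bool :=
  w.getD p.1 false && (!(w.getD p.2 false) && me M p.1 p.2)

/-- the number of arcs leaving the set with characteristic vector `w` -/
def cnt (M : List (List Bool)) (w : List Bool) : ℕ :=
  ((List.range M.length ×ˢ List.range M.length).filter (fun p => ct M w p)).length

theorem cnt_eq {n : ℕ} (D : Fin n → Fin n → Prop) (w : List Bool) :
    cnt (relM D) w = outCut D {i : Fin n | w.getD (i : ℕ) false = true} := by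
  classical
  unfold cnt outCut
  rw [length_relM]
  have hnd : (((List.range n ×ˢ List.range n).filter (fun p => ct (relM D) w p))).Nodup :=
    (List.nodup_range.product List.nodup_range).filter _
  rw [← List.toFinset_card_of_nodup hnd, ← Set.ncard_coe_finset]
  have hinj : Function.Injective (fun p : Fin n × Fin n => ((p.1 : ℕ), (p.2 : ℕ))) := by
    intro p q h
    simp only [Prod.mk.injEq] at h
    exact Prod.ext (Fin.ext h.1) (Fin.ext h.2)
  rw [← Set.ncard_image_of_injective {p : Fin n × Fin n | p.1 ∈ _ ∧ p.2 ∉ _ ∧ D p.1 p.2} hinj]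
  congr 1
  ext ⟨a, b⟩
  simp only [List.coe_toFinset, List.mem_filter, List.mem_product, List.mem_range,
    Set.mem_ofPred_eq, Set.mem_image, Prod.mk.injEq, Prod.exists, ct, Bool.and_eq_true,
    Bool.not_eq_true']
  constructor
  · rintro ⟨⟨h1, h2⟩, h3, h4, h5⟩
    refine ⟨⟨a, h1⟩, ⟨b, h2⟩, ⟨h3, by simp only [h4]; simp, ?_⟩, rfl, rfl⟩
    exact (me_relM D ⟨a, h1⟩ ⟨b, h2⟩).1 h5
  · rintro ⟨i, j, ⟨h1, h2, h3⟩, rfl, rfl⟩
    exact ⟨⟨i.isLt, j.isLt⟩, h1, by simpa using h2, (me_relM D i j).2 h3⟩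

/-- the verifier for the directed problem -/
def vD (x : ((List (List Bool) × List (List Bool)) × (ℕ × ℕ)) × List Bool) : Bool :=
  ((sq x.1.1.1 && sq x.1.1.2) && (decide (x.1.1.1.length = x.1.1.2.length) &&
    ((irr x.1.1.1 && irr x.1.1.2) && dis x.1.1.1 x.1.1.2))) &&
  ((decide (x.2.length = x.1.1.1.length) && (decide (true ∈ x.2) && decide (false ∈ x.2))) &&
    (decide (cnt x.1.1.1 x.2 ≤ x.1.2.1) && decide (cnt x.1.1.2 x.2 ≤ x.1.2.2)))

theorem exists_vec {n : ℕ} (X : Set (Fin n)) : ∃ w : List Bool, w.length = n ∧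
    ∀ i : Fin n, w.getD (i : ℕ) false = true ↔ i ∈ X := by
  classical
  refine ⟨List.ofFn (fun i => decide (i ∈ X)), by simp, fun i => ?_⟩
  rw [List.getD_eq_getElem?_getD, List.getElem?_eq_getElem (by simp)]
  simp

theorem digraph_disj {n : ℕ} {R B : Digraph (Fin n)} :
    Disjoint R B ↔ ∀ i j, ¬ (R.Adj i j ∧ B.Adj i j) := by
  rw [disjoint_iff]
  constructor
  · intro h i j hij
    have h1 : (R ⊓ B).Adj i j := hij
    rw [h] at h1
    exact h1
  · intro h
    ext i j
    simp only [Digraph.inf_adj, Digraph.bot_adj]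
    exact ⟨fun h' => h i j h', fun h' => absurd h' id⟩

theorem directed_iff (I : (List (List Bool) × List (List Bool)) × (ℕ × ℕ)) :
    DirectedRedBlueCut I ↔ ∃ w : List Bool, vD (I, w) = true := by
  constructor
  · rintro ⟨n, R, B, h1, h2, h3, X, h4, h5, h6, h7⟩
    obtain ⟨w, hw, hwX⟩ := exists_vec X
    refine ⟨w, ?_⟩
    obtain ⟨⟨M, N⟩, r, b⟩ := I
    simp only [Prod.mk.injEq] at h1
    obtain ⟨rfl, rfl⟩ := h1
    have hX : {i : Fin n | w.getD (i : ℕ) false = true} = X := Set.ext fun i => hwX i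
    simp only [vD, Bool.and_eq_true, decide_eq_true_eq, relM_d, length_relM, cnt_eq, hX]
    refine ⟨⟨⟨(sq_iff _).2 ⟨_, _, rfl⟩, (sq_iff _).2 ⟨_, _, rfl⟩⟩, trivial,
      ⟨(irr_iff _).2 fun i => (h2 i).1, (irr_iff _).2 fun i => (h2 i).2⟩,
      (dis_iff _ _).2 (digraph_disj.1 h3)⟩, ⟨hw, ?_, ?_⟩, h6, h7⟩
    · obtain ⟨i, hi⟩ := h4
      rw [← hwX i, List.getD_eq_getElem?_getD, List.getElem?_eq_getElem (by rw [hw]; exact i.isLt)] at hi
      simp only [Option.getD_some] at hi
      rw [← hi]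
      exact List.getElem_mem _
    · obtain ⟨i, hi⟩ := (Set.ne_univ_iff_exists_notMem X).1 h5
      rw [← hwX i, List.getD_eq_getElem?_getD, List.getElem?_eq_getElem (by rw [hw]; exact i.isLt)] at hi
      simp only [Option.getD_some, Bool.not_eq_true] at hi
      rw [← hi]
      exact List.getElem_mem _
  · rintro ⟨w, h⟩
    obtain ⟨⟨M, N⟩, r, b⟩ := I
    simp only [vD, Bool.and_eq_true, decide_eq_true_eq] at h
    obtain ⟨⟨⟨h1, h2⟩, h3, ⟨h4, h5⟩, h6⟩, ⟨h7, h8, h9⟩, h10, h11⟩ := h
    obtain ⟨n, D, rfl⟩ := (sq_iff _).1 h1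
    obtain ⟨m, D', rfl⟩ := (sq_iff _).1 h2
    rw [length_relM, length_relM] at h3
    subst h3
    rw [irr_iff] at h4 h5
    rw [dis_iff] at h6
    rw [cnt_eq] at h10 h11
    rw [length_relM] at h7
    refine ⟨n, ⟨D⟩, ⟨D'⟩, rfl, fun v => ⟨h4 v, h5 v⟩, digraph_disj.2 h6,
      {i | w.getD (i : ℕ) false = true}, ?_, ?_, h10, h11⟩
    · obtain ⟨i, hi, hi'⟩ := List.getElem_of_mem h8
      refine ⟨⟨i, h7 ▸ hi⟩, ?_⟩
      simp only [Set.mem_ofPred_eq, List.getD_eq_getElem?_getD, List.getElem?_eq_getElem hi,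
        Option.getD_some, hi']
    · obtain ⟨i, hi, hi'⟩ := List.getElem_of_mem h9
      rw [Set.ne_univ_iff_exists_notMem]
      refine ⟨⟨i, h7 ▸ hi⟩, ?_⟩
      simp only [Set.mem_ofPred_eq, List.getD_eq_getElem?_getD, List.getElem?_eq_getElem hi,
        Option.getD_some, hi']
      simp

/-- the verifier for the undirected problem -/
def vU (x : ((List (List Bool) × List (List Bool)) × (ℕ × ℕ) × (ℕ × ℕ)) × List Bool) : Bool :=
  ((wf x.1.1.1 && wf x.1.1.2) && (decide (x.1.1.1.length = x.1.1.2.length) &&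
    ((decide (x.1.2.1.1 < x.1.1.1.length) && decide (x.1.2.1.2 < x.1.1.1.length)) &&
      dis x.1.1.1 x.1.1.2))) &&
  ((decide (x.2.length = x.1.1.1.length) && (x.2.getD x.1.2.1.1 false &&
    !(x.2.getD x.1.2.1.2 false))) &&
    (decide (cnt x.1.1.1 x.2 ≤ x.1.2.2.1) && decide (cnt x.1.1.2 x.2 ≤ x.1.2.2.2)))

theorem graph_disj {n : ℕ} {R B : SimpleGraph (Fin n)} :
    Disjoint R B ↔ ∀ i j, ¬ (R.Adj i j ∧ B.Adj i j) := by
  rw [disjoint_iff]
  constructor
  · intro h i j hij
    have h1 : (R ⊓ B).Adj i j := hij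
    rw [h] at h1
    exact h1
  · intro h
    ext i j
    simp only [SimpleGraph.inf_adj, SimpleGraph.bot_adj]
    exact ⟨fun h' => h i j h', fun h' => absurd h' id⟩

theorem undirected_iff (I : (List (List Bool) × List (List Bool)) × (ℕ × ℕ) × (ℕ × ℕ)) :
    RedBlueSTCut I ↔ ∃ w : List Bool, vU (I, w) = true := by
  constructor
  · rintro ⟨n, R, B, s, t, h1, h2, h3, h4, X, h5, h6, h7, h8⟩
    obtain ⟨w, hw, hwX⟩ := exists_vec X
    refine ⟨w, ?_⟩
    obtain ⟨⟨M, N⟩, ⟨s', t'⟩, r, b⟩ := I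
    simp only [Prod.mk.injEq] at h1 h2
    obtain ⟨rfl, rfl⟩ := h1
    obtain ⟨rfl, rfl⟩ := h2
    have hX : {i : Fin n | w.getD (i : ℕ) false = true} = X := Set.ext fun i => hwX i
    simp only [vU, Bool.and_eq_true, decide_eq_true_eq, Bool.not_eq_true']
    refine ⟨⟨⟨(wf_iff _).2 ⟨_, _, rfl⟩, (wf_iff _).2 ⟨_, _, rfl⟩⟩, ?_, ⟨?_, ?_⟩, ?_⟩,
      ⟨?_, (hwX s).2 h5, ?_⟩, ?_, ?_⟩
    · rw [length_adjMatrix, length_adjMatrix]
    · rw [length_adjMatrix]; exact s.isLt
    · rw [length_adjMatrix]; exact t.isLt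
    · rw [relM_adj, relM_adj, dis_iff]
      exact graph_disj.1 h3
    · rw [length_adjMatrix]; exact hw
    · rw [← Bool.not_eq_true, hwX t]; exact h6
    · rw [relM_adj, cnt_eq, hX]; exact h7
    · rw [relM_adj, cnt_eq, hX]; exact h8
  · rintro ⟨w, h⟩
    obtain ⟨⟨M, N⟩, ⟨s', t'⟩, r, b⟩ := I
    simp only [vU, Bool.and_eq_true, decide_eq_true_eq, Bool.not_eq_true'] at h
    obtain ⟨⟨⟨h1, h2⟩, h3, ⟨h4, h5⟩, h6⟩, ⟨h7, h8, h9⟩, h10, h11⟩ := h
    obtain ⟨n, R, rfl⟩ := (wf_iff _).1 h1
    obtain ⟨m, B, rfl⟩ := (wf_iff _).1 h2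
    rw [length_adjMatrix, length_adjMatrix] at h3
    subst h3
    rw [length_adjMatrix] at h4 h5 h7
    rw [relM_adj, relM_adj, dis_iff] at h6
    rw [relM_adj, cnt_eq] at h10 h11
    refine ⟨n, R, B, ⟨s', h4⟩, ⟨t', h5⟩, rfl, rfl, graph_disj.2 h6, ?_,
      {i | w.getD (i : ℕ) false = true}, h8, ?_, h10, h11⟩
    · intro hst
      have := congrArg Fin.val hst
      simp only at this
      rw [this, h9] at h8
      exact absurd h8 (by simp)
    · simp only [Set.mem_ofPred_eq]
      rw [h9]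
      simp

theorem sq_poly : Poly sq := by
  unfold sq
  fun_prop

theorem irr_poly : Poly irr := by
  unfold irr
  have h1 : UPoly (fun M : List (List Bool) => M.length) := UPoly.length (by fun_prop)
  exact NPC.Poly.all (l := fun M : List (List Bool) => List.range M.length)
    (p := fun M i => !(me M i i)) h1.range (by fun_prop)

theorem dis_poly : Poly (fun x : List (List Bool) × List (List Bool) => dis x.1 x.2) := by
  unfold dis
  refine all2_poly (α := List (List Bool) × List (List Bool)) (m := fun x => x.1.length)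
    (UPoly.length (by fun_prop)) (F := fun x i j => !(me x.1 i j && me x.2 i j)) ?_
  fun_prop

theorem cnt_poly : Poly (fun x : List (List Bool) × List Bool => cnt x.1 x.2) := by
  unfold cnt
  have h1 : UPoly (fun x : List (List Bool) × List Bool => x.1.length) :=
    UPoly.length (by fun_prop)
  have h2 := h1.range
  refine NPC.Poly.length ?_
  refine NPC.Poly.filter (l := fun x : List (List Bool) × List Bool =>
    List.range x.1.length ×ˢ List.range x.1.length) (p := fun x p => ct x.1 x.2 p)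
    (poly_product h2 h2) ?_
  unfold ct
  fun_prop

attribute [local irreducible] cnt dis sq irr wf me ct

theorem cnt_poly' {α : Type} [TEnc α] {M : α → List (List Bool)} {w : α → List Bool}
    (h1 : Poly M) (h2 : Poly w) : Poly (fun a => cnt (M a) (w a)) :=
  cnt_poly.comp (h1.pair h2)

theorem dis_poly' {α : Type} [TEnc α] {M N : α → List (List Bool)}
    (h1 : Poly M) (h2 : Poly N) : Poly (fun a => dis (M a) (N a)) :=
  dis_poly.comp (h1.pair h2)

theorem sq_poly' {α : Type} [TEnc α] {M : α → List (List Bool)}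
    (h1 : Poly M) : Poly (fun a => sq (M a)) := sq_poly.comp h1

theorem irr_poly' {α : Type} [TEnc α] {M : α → List (List Bool)}
    (h1 : Poly M) : Poly (fun a => irr (M a)) := irr_poly.comp h1

theorem wf_poly' {α : Type} [TEnc α] {M : α → List (List Bool)}
    (h1 : Poly M) : Poly (fun a => wf (M a)) := wf_poly.comp h1

attribute [local fun_prop] cnt_poly' dis_poly' sq_poly' irr_poly' wf_poly'

theorem vD_poly : Poly vD := by
  unfold vD
  refine NPC.Poly.and (NPC.Poly.and (NPC.Poly.and ?_ ?_) (NPC.Poly.and ?_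
    (NPC.Poly.and (NPC.Poly.and ?_ ?_) ?_))) (NPC.Poly.and (NPC.Poly.and ?_
      (NPC.Poly.and ?_ ?_)) (NPC.Poly.and ?_ ?_))
  all_goals fun_prop

theorem vU_poly : Poly vU := by
  unfold vU
  refine NPC.Poly.and (NPC.Poly.and (NPC.Poly.and ?_ ?_) (NPC.Poly.and ?_
    (NPC.Poly.and (NPC.Poly.and ?_ ?_) ?_))) (NPC.Poly.and (NPC.Poly.and ?_
      (NPC.Poly.and ?_ ?_)) (NPC.Poly.and ?_ ?_))
  all_goals fun_prop

theorem length_le_of_fst {β γ : Type} [TEnc β] [TEnc γ]
    (x : (List (List Bool) × β) × γ) : x.1.1.length ≤ sz x := by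
  obtain ⟨⟨M, b⟩, c⟩ := x
  have := length_lt_sz M
  rw [sz_pair, sz_pair]
  simp only
  omega

theorem inNPP_directed : InNPP DirectedRedBlueCut := by
  refine inNPP_of (R := vD) vD_poly (4 * Polynomial.X + 1) ?_
  intro I
  rw [directed_iff]
  refine exists_congr fun w => ⟨fun h => ⟨?_, h⟩, fun h => h.2⟩
  have h1 := sz_listBool_le w
  have h2 : w.length = I.1.1.length := by
    simp only [vD, Bool.and_eq_true, decide_eq_true_eq] at h
    exact h.2.1.1
  have h3 := length_le_of_fst I
  simp only [Polynomial.eval_add, Polynomial.eval_mul, Polynomial.eval_X,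
    Polynomial.eval_ofNat, Polynomial.eval_one]
  omega

theorem inNPP_undirected : InNPP RedBlueSTCut := by
  refine inNPP_of (R := vU) vU_poly (4 * Polynomial.X + 1) ?_
  intro I
  rw [undirected_iff]
  refine exists_congr fun w => ⟨fun h => ⟨?_, h⟩, fun h => h.2⟩
  have h1 := sz_listBool_le w
  have h2 : w.length = I.1.1.length := by
    simp only [vU, Bool.and_eq_true, decide_eq_true_eq] at h
    exact h.2.1.1
  have h3 := length_le_of_fst I
  simp only [Polynomial.eval_add, Polynomial.eval_mul, Polynomial.eval_X,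
    Polynomial.eval_ofNat, Polynomial.eval_one]
  omega

end Pool.Agent.Y599.RB
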