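import Pool.Agent.NPC.Defs
import Pool.Agent.H671R2.ZDefs

/-!
# Red-blue cuts: definitions
-/

namespace Pool.Agent.Y599.RB

open Pool.Agent.NPC Pool.Agent.NPC.R671

/-- The number of arcs of the relation `D` (pairs `(u, v)` with `D u v`) with tail in `X` and head
outside `X`. -/
noncomputable def outCut {V : Type} (D : V → V → Prop) (X : Set V) : ℕ :=
  {p : V × V | p.1 ∈ X ∧ p.2 ∉ X ∧ D p.1 p.2}.ncard

/-- The adjacency matrix of a digraph on `{0, ..., n-1}`, as a list of rows. -/
noncomputable def dMatrix {n : ℕ} (D : Digraph (Fin n)) : List (List Bool) :=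
  open Classical in List.ofFn fun i => List.ofFn fun j => decide (D.Adj i j)

/-- The unweighted red-blue `s`-`t` cut problem for undirected graphs.  The input consists of the
adjacency matrices of the graph `R` of the red edges and of the graph `B` of the blue edges (on the
same vertices, no edge is both red and blue), two different vertices `s`, `t` and two numbers. -/
def RedBlueSTCut (I : (List (List Bool) × List (List Bool)) × (ℕ × ℕ) × (ℕ × ℕ)) : Prop :=
  ∃ (n : ℕ) (R B : SimpleGraph (Fin n)) (s t : Fin n),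
    I.1 = (adjMatrix R, adjMatrix B) ∧ I.2.1 = ((s : ℕ), (t : ℕ)) ∧ Disjoint R B ∧ s ≠ t ∧
    ∃ X : Set (Fin n), s ∈ X ∧ t ∉ X ∧ outCut R.Adj X ≤ I.2.2.1 ∧ outCut B.Adj X ≤ I.2.2.2

/-- The red-blue cut problem for directed graphs.  The input consists of the adjacency matrices of
the digraph `R` of the red arcs and of the digraph `B` of the blue arcs (on the same vertices,
without loops, no arc is both red and blue) and two numbers. -/
def DirectedRedBlueCut (I : (List (List Bool) × List (List Bool)) × (ℕ × ℕ)) : Prop :=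
  ∃ (n : ℕ) (R B : Digraph (Fin n)),
    I.1 = (dMatrix R, dMatrix B) ∧ (∀ v, ¬ R.Adj v v ∧ ¬ B.Adj v v) ∧ Disjoint R B ∧
    ∃ X : Set (Fin n), X.Nonempty ∧ X ≠ Set.univ ∧
      outCut R.Adj X ≤ I.2.1 ∧ outCut B.Adj X ≤ I.2.2

end Pool.Agent.Y599.RB
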