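import Pool.Agent.Y599.RB.Lab

/-!
# The directed problem: reduction from the clique problem
-/

namespace Pool.Agent.Y599.RB.Dir

open Pool.Agent.NPC Pool.Agent.NPC.R671 Pool.Agent.NPC.H634R2 Pool.Agent.Y599.RB

/-- labels of vertices: `(0,i,0,0)` are the sources, `(2,v,0,0)` is the vertex `v` of the given
graph, `(3,w,c,e)` are the sinks -/
abbrev Lb := ℕ × ℕ × ℕ × ℕ

/-- is the arc from the vertex `v` to the sink `b` present? -/
def valid (E : List (ℕ × ℕ)) (v : ℕ) (b : Lb) : Bool :=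
  decide (b.2.2.2 = 0) && (!decide (b.2.2.1 = 0) || !ae E v b.2.1)

/-- the red arcs -/
def red (E : List (ℕ × ℕ)) (a b : Lb) : Bool :=
  (((decide (a.1 = 2) && decide (b.1 = 2)) && ae E a.2.1 b.2.1) ||
  ((decide (a.1 = 2) && decide (b.1 = 3)) && valid E a.2.1 b)) ||
  ((((decide (a.1 = 2) || decide (a.1 = 3)) && decide (b.1 = 0)) ||
  (decide (a.1 = 3) && decide (b.1 = 2))) ||
  (((decide (a.1 = 0) && decide (b.1 = 0)) || (decide (a.1 = 3) && decide (b.1 = 3))) &&
    !decide (a = b)))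

/-- the blue arcs -/
def blue (a b : Lb) : Bool := decide (a = (0, 0, 0, 0)) && decide (b.1 = 2)

/-- the number of copies -/
def KK (V : List ℕ) : ℕ := 4 * (V.length * V.length) + V.length + 2

/-- the vertices -/
def vs (V : List ℕ) : List Lb :=
  (List.range (KK V)).map (fun i => (0, i, 0, 0)) ++ (V.map (fun v => (2, v, 0, 0)) ++
    (V ×ˢ ([0, 1, 2] ×ˢ List.range (KK V))).map (fun x => (3, x.1, x.2.1, x.2.2)))

theorem mem_vs {V : List ℕ} {a : Lb} : a ∈ vs V ↔ (∃ i < KK V, a = (0, i, 0, 0)) ∨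
    (∃ v ∈ V, a = (2, v, 0, 0)) ∨ ∃ w ∈ V, ∃ c < 3, ∃ e < KK V, a = (3, w, c, e) := by
  unfold vs
  simp only [List.mem_append, List.mem_map, List.mem_product,
    Prod.exists, List.mem_cons, List.not_mem_nil, or_false, List.mem_range]
  constructor
  · rintro (⟨i, h1, h2⟩ | ⟨v, h1, h2⟩ | ⟨w, c, e, ⟨h1, h2, h3⟩, h4⟩)
    · exact Or.inl ⟨i, h1, h2.symm⟩
    · exact Or.inr (Or.inl ⟨v, h1, h2.symm⟩)
    · exact Or.inr (Or.inr ⟨w, h1, c, by omega, e, h3, h4.symm⟩)
  · rintro (⟨i, h1, h2⟩ | ⟨v, h1, h2⟩ | ⟨w, h1, c, h2, e, h3, h4⟩)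
    · exact Or.inl ⟨i, h1, h2.symm⟩
    · exact Or.inr (Or.inl ⟨v, h1, h2.symm⟩)
    · exact Or.inr (Or.inr ⟨w, c, e, ⟨h1, by omega, h3⟩, h4.symm⟩)

theorem nodup_vs {V : List ℕ} (hV : V.Nodup) : (vs V).Nodup := by
  unfold vs
  rw [List.nodup_append, List.nodup_append]
  refine ⟨?_, ⟨?_, ?_, ?_⟩, ?_⟩
  · exact List.nodup_range.map fun a b h => by simpa using h
  · exact hV.map fun a b h => by simpa using h
  · refine (hV.product ((by decide : ([0, 1, 2] : List ℕ).Nodup).product List.nodup_range)).map ?_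
    rintro ⟨a, b, c⟩ ⟨a', b', c'⟩ h
    simpa using h
  · intro a ha b hb hab
    simp only [List.mem_map] at ha hb
    obtain ⟨v, _, rfl⟩ := ha
    obtain ⟨x, _, rfl⟩ := hb
    simp at hab
  · intro a ha b hb hab
    simp only [List.mem_append, List.mem_map] at ha hb
    obtain ⟨v, _, rfl⟩ := ha
    rcases hb with ⟨x, _, rfl⟩ | ⟨x, _, rfl⟩ <;> simp at hab

theorem red_irrefl (E : List (ℕ × ℕ)) (a : Lb) : red E a a = false := by
  obtain ⟨x, y, z, w⟩ := a
  simp only [red, ae_irrefl, decide_true, Bool.not_true, Bool.and_false, Bool.false_or,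
    Bool.or_false]
  by_cases h : x = 2
  · subst h; simp
  · by_cases h' : x = 3
    · subst h'; simp
    · simp [h, h']

theorem blue_irrefl (a : Lb) : blue a a = false := by
  obtain ⟨x, y, z, w⟩ := a
  simp only [blue, Bool.and_eq_false_iff, decide_eq_false_iff_not, Prod.mk.injEq]
  omega

theorem disj (E : List (ℕ × ℕ)) (a b : Lb) : ¬ (red E a b = true ∧ blue a b = true) := by
  obtain ⟨x, y, z, w⟩ := a
  obtain ⟨x', y', z', w'⟩ := b
  simp only [red, blue, Bool.or_eq_true, Bool.and_eq_true, decide_eq_true_eq, Prod.mk.injEq]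
  omega

/-- the budget for red arcs -/
def rb (V : List ℕ) (k : ℕ) : ℕ := 3 * V.length * k + k - k * k

/-- the instance -/
def inst (I : (List ℕ × List (ℕ × ℕ)) × ℕ) :
    (List (List Bool) × List (List Bool)) × (ℕ × ℕ) :=
  if I.2 ≤ I.1.1.length then
    (((vs I.1.1).map (fun a => (vs I.1.1).map (fun b => red I.1.2 a b)),
      (vs I.1.1).map (fun a => (vs I.1.1).map (fun b => blue a b))),
      (rb I.1.1 I.2, I.1.1.length - I.2))
  else (([], []), (0, 0))

/-- the red digraph -/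
def gR (V : List ℕ) (E : List (ℕ × ℕ)) : Digraph (Fin (vs V).length) :=
  ⟨fun i j => red E (vs V)[i] (vs V)[j] = true⟩

/-- the blue digraph -/
def gB (V : List ℕ) : Digraph (Fin (vs V).length) :=
  ⟨fun i j => blue (vs V)[i] (vs V)[j] = true⟩

theorem dMatrix_eq {n : ℕ} (D : Digraph (Fin n)) (vs : List Lb) (h : vs.length = n)
    (ad : Lb → Lb → Bool) (hD : ∀ i j : Fin n, D.Adj i j ↔
      ad (vs[(i : ℕ)]'(h ▸ i.isLt)) (vs[(j : ℕ)]'(h ▸ j.isLt)) = true) :
    dMatrix D = vs.map (fun a => vs.map (fun b => ad a b)) := by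
  subst h
  unfold dMatrix
  apply List.ext_getElem
  · simp
  · intro i h1 h2
    simp only [List.getElem_ofFn, List.getElem_map]
    apply List.ext_getElem
    · simp
    · intro j h3 h4
      simp [hD]

theorem dMatrix_inj {n : ℕ} {G H : Digraph (Fin n)} (h : dMatrix G = dMatrix H) :
    G = H := by
  ext i j
  unfold dMatrix at h
  have h1 := List.ofFn_injective h
  have h2 := List.ofFn_injective (congrFun h1 i)
  have h3 := congrFun h2 j
  simpa using h3

theorem gR_matrix (V : List ℕ) (E : List (ℕ × ℕ)) :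
    dMatrix (gR V E) = (vs V).map (fun a => (vs V).map (fun b => red E a b)) :=
  dMatrix_eq _ _ rfl _ fun _ _ => Iff.rfl

theorem gB_matrix (V : List ℕ) :
    dMatrix (gB V) = (vs V).map (fun a => (vs V).map (fun b => blue a b)) :=
  dMatrix_eq _ _ rfl _ fun _ _ => Iff.rfl

section

variable {V : List ℕ} {E : List (ℕ × ℕ)}

/-- many cut arcs -/
theorem many {ι : Type} {Y : Set Lb} (hY : ∀ a ∈ Y, a ∈ vs V) (s : Finset ι) (g : ι → Lb × Lb)
    (hg : ∀ x ∈ s, (g x).1 ∈ Y ∧ (g x).2 ∈ vs V ∧ (g x).2 ∉ Y ∧ red E (g x).1 (g x).2 = true)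
    (hi : ∀ x ∈ s, ∀ y ∈ s, g x = g y → x = y) : s.card ≤ lcut (vs V) (red E) Y := by
  unfold lcut
  rw [← Set.ncard_coe_finset]
  exact Set.ncard_le_ncard_of_injOn g (fun x hx => hg x hx)
    (fun x hx y hy h => hi x hx y hy h) (lcut_finite _ _ hY)

/-- cutting a complete set costs much -/
theorem clique_cut {Y : Set Lb} (hY : ∀ a ∈ Y, a ∈ vs V) (C : Finset Lb) (hC : ∀ a ∈ C, a ∈ vs V)
    (hE : ∀ a ∈ C, ∀ b ∈ C, a ≠ b → red E a b = true) {a b : Lb} (ha : a ∈ C) (ha' : a ∈ Y)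
    (hb : b ∈ C) (hb' : b ∉ Y) : C.card ≤ lcut (vs V) (red E) Y + 1 := by
  classical
  have h := many (E := E) hY (C.erase b) (fun x => if x ∈ Y then (x, b) else (a, x)) ?_ ?_
  · rw [Finset.card_erase_of_mem hb] at h
    omega
  · intro x hx
    rw [Finset.mem_erase] at hx
    by_cases hxY : x ∈ Y
    · simp only [if_pos hxY]
      exact ⟨hxY, hC b hb, hb', hE x hx.2 b hb hx.1⟩
    · simp only [if_neg hxY]
      exact ⟨ha', hC x hx.2, hxY, hE a ha x hx.2 fun h => hxY (h ▸ ha')⟩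
  · intro x hx y hy hxy
    rw [Finset.mem_erase] at hx hy
    by_cases hxY : x ∈ Y <;> by_cases hyY : y ∈ Y <;>
      simp only [hxY, hyY, if_true, if_false, Prod.mk.injEq] at hxy
    · exact hxy.1
    · exact absurd hxy.2.symm hy.1
    · exact absurd hxy.2 hx.1
    · exact hxy.2

/-- the sources -/
def SS (V : List ℕ) : Finset Lb := (Finset.range (KK V)).image (fun i => (0, i, 0, 0))

/-- the sinks -/
def TT (V : List ℕ) : Finset Lb := (V.toFinset ×ˢ (Finset.range 3 ×ˢ Finset.range (KK V))).image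
  (fun x => (3, x.1, x.2.1, x.2.2))

theorem mem_SS {a : Lb} : a ∈ SS V ↔ ∃ i < KK V, a = (0, i, 0, 0) := by
  simp only [SS, Finset.mem_image, Finset.mem_range]
  exact exists_congr fun i => and_congr_right fun _ => eq_comm

theorem mem_TT {a : Lb} : a ∈ TT V ↔ ∃ w ∈ V, ∃ c < 3, ∃ e < KK V, a = (3, w, c, e) := by
  simp only [TT, Finset.mem_image, Finset.mem_product, List.mem_toFinset, Finset.mem_range,
    Prod.exists]
  constructor
  · rintro ⟨w, c, e, ⟨h1, h2, h3⟩, h4⟩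
    exact ⟨w, h1, c, h2, e, h3, h4.symm⟩
  · rintro ⟨w, h1, c, h2, e, h3, h4⟩
    exact ⟨w, c, e, ⟨h1, h2, h3⟩, h4.symm⟩

theorem card_SS : (SS V).card = KK V := by
  rw [SS, Finset.card_image_of_injective, Finset.card_range]
  intro a b h
  simpa using h

theorem card_TT (hV : V.Nodup) : (TT V).card = V.length * (3 * KK V) := by
  rw [TT, Finset.card_image_of_injective, Finset.card_product, Finset.card_product,
    Finset.card_range, Finset.card_range, List.toFinset_card_of_nodup hV]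
  rintro ⟨a, b, c⟩ ⟨a', b', c'⟩ h
  simpa using h

theorem forced (hV : V.Nodup) (hV0 : 0 < V.length) {Y : Set Lb} (hY : ∀ a ∈ Y, a ∈ vs V)
    (hne : Y.Nonempty) {z : Lb} (hz : z ∈ vs V) (hz' : z ∉ Y)
    (hc : lcut (vs V) (red E) Y + 1 < KK V) :
    (∀ a ∈ SS V, a ∈ Y) ∧ ∀ a ∈ TT V, a ∉ Y := by
  have hS : ∀ a ∈ SS V, a ∈ vs V := fun a ha => mem_vs.2 (Or.inl (mem_SS.1 ha))
  have hT : ∀ a ∈ TT V, a ∈ vs V := fun a ha => mem_vs.2 (Or.inr (Or.inr (mem_TT.1 ha)))
  have hSE : ∀ a ∈ SS V, ∀ b ∈ SS V, a ≠ b → red E a b = true := by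
    intro a ha b hb hab
    obtain ⟨i, _, rfl⟩ := mem_SS.1 ha
    obtain ⟨j, _, rfl⟩ := mem_SS.1 hb
    have hij : i ≠ j := fun h => hab (by rw [h])
    simp [red, hij]
  have hTE : ∀ a ∈ TT V, ∀ b ∈ TT V, a ≠ b → red E a b = true := by
    intro a ha b hb hab
    obtain ⟨i, _, c, _, e, _, rfl⟩ := mem_TT.1 ha
    obtain ⟨j, _, c', _, e', _, rfl⟩ := mem_TT.1 hb
    have hij : ¬ (i = j ∧ c = c' ∧ e = e') := fun h => hab (by rw [h.1, h.2.1, h.2.2])
    simp only [red, Bool.or_eq_true, Bool.and_eq_true, decide_eq_true_eq, Bool.not_eq_true',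
      decide_eq_false_iff_not, Prod.mk.injEq, true_and]
    right
    right
    exact ⟨Or.inr trivial, hij⟩
  have hKT : KK V ≤ (TT V).card := by
    rw [card_TT hV]
    nlinarith
  have h1 : ∀ a ∈ SS V, a ∈ Y := by
    by_contra hcon
    push Not at hcon
    obtain ⟨b, hb, hb'⟩ := hcon
    by_cases hex : ∃ a ∈ SS V, a ∈ Y
    · obtain ⟨a, ha, ha'⟩ := hex
      have := clique_cut (E := E) hY (SS V) hS hSE ha ha' hb hb'
      rw [card_SS] at this
      omega
    · push Not at hex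
      obtain ⟨y, hy⟩ := hne
      have h2 : y.1 = 2 ∨ y.1 = 3 := by
        rcases mem_vs.1 (hY y hy) with h | ⟨v, _, rfl⟩ | ⟨w, _, c, _, e, _, rfl⟩
        · exact absurd hy (hex y (mem_SS.2 h))
        · exact Or.inl rfl
        · exact Or.inr rfl
      have h3 := many (E := E) hY (SS V) (fun x => (y, x)) ?_ ?_
      · rw [card_SS] at h3
        omega
      · intro x hx
        refine ⟨hy, hS x hx, hex x hx, ?_⟩
        obtain ⟨i, _, rfl⟩ := mem_SS.1 hx
        rcases h2 with h2 | h2 <;> simp [red, h2]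
      · intro x _ x' _ h
        simpa using h
  refine ⟨h1, ?_⟩
  by_contra hcon
  push Not at hcon
  obtain ⟨a, ha, ha'⟩ := hcon
  by_cases hex : ∃ b ∈ TT V, b ∉ Y
  · obtain ⟨b, hb, hb'⟩ := hex
    have := clique_cut (E := E) hY (TT V) hT hTE ha ha' hb hb'
    omega
  · push Not at hex
    have h2 : z.1 = 2 := by
      rcases mem_vs.1 hz with h | ⟨v, _, rfl⟩ | h
      · exact absurd (h1 z (mem_SS.2 h)) hz'
      · rfl
      · exact absurd (hex z (mem_TT.2 h)) hz'
    have h3 := many (E := E) hY (TT V) (fun x => (x, z)) ?_ ?_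
    · omega
    · intro x hx
      refine ⟨hex x hx, hz, hz', ?_⟩
      obtain ⟨i, _, c, _, e, _, rfl⟩ := mem_TT.1 hx
      simp [red, h2]
    · intro x _ x' _ h
      simpa using h

/-- the chosen vertices -/
noncomputable def chosen (V : List ℕ) (Y : Set Lb) : Finset ℕ :=
  open Classical in V.toFinset.filter (fun v => ((2, v, 0, 0) : Lb) ∈ Y)

theorem mem_chosen {Y : Set Lb} {v : ℕ} : v ∈ chosen V Y ↔ v ∈ V ∧ ((2, v, 0, 0) : Lb) ∈ Y := by
  simp [chosen]

theorem KK_pos (V : List ℕ) : 0 < KK V := by unfold KK; omega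

theorem valid_of {v w c : ℕ} (h : ¬ (c = 0 ∧ ae E v w = true)) :
    valid E v (3, w, c, 0) = true := by
  simp only [valid, decide_true, Bool.true_and, Bool.or_eq_true, Bool.not_eq_true',
    decide_eq_false_iff_not]
  by_contra hc
  push Not at hc
  exact h ⟨hc.1, by simpa using hc.2⟩

theorem lower {Y : Set Lb} (hY : ∀ a ∈ Y, a ∈ vs V)
    (ht : ∀ a ∈ TT V, a ∉ Y) : (FF V E (chosen V Y)).card ≤ lcut (vs V) (red E) Y := by
  classical
  refine many hY _ (fun x => if x.2.2 = 0 ∧ ae E x.1 x.2.1 = true then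
    ((2, x.1, 0, 0), (2, x.2.1, 0, 0)) else ((2, x.1, 0, 0), (3, x.2.1, x.2.2, 0))) ?_ ?_
  · rintro ⟨v, w, c⟩ h
    simp only [FF, Finset.mem_filter, Finset.mem_product, mem_chosen, List.mem_toFinset,
      Finset.mem_range] at h
    obtain ⟨⟨⟨h1, h2⟩, h3, h4⟩, h5⟩ := h
    simp only
    split_ifs with h6
    · refine ⟨h2, mem_vs.2 (Or.inr (Or.inl ⟨w, h3, rfl⟩)), fun h8 => h5 ⟨h6.1, h6.2, h3, h8⟩,
        ?_⟩
      simp only [red, h6.2, decide_true, Bool.and_self, Bool.true_or]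
    · have h7 : ((3, w, c, 0) : Lb) ∈ TT V := mem_TT.2 ⟨w, h3, c, h4, 0, KK_pos V, rfl⟩
      refine ⟨h2, mem_vs.2 (Or.inr (Or.inr (mem_TT.1 h7))), ht _ h7, ?_⟩
      simp [red, valid_of h6]
  · rintro ⟨v, w, c⟩ _ ⟨v', w', c'⟩ _ h
    simp only at h
    split_ifs at h with h1 h2 h3
    all_goals simp only [Prod.mk.injEq, Nat.reduceEqDiff,
      and_true, false_and, and_false, true_and] at h ⊢
    · obtain ⟨h9, h10⟩ := h
      exact ⟨h9, h10, by rw [h1.1, h2.1]⟩
    · exact h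

theorem upper {A : Finset ℕ} (Y : Set Lb)
    (hY : ∀ a, a ∈ Y ↔ a ∈ SS V ∨ ∃ v ∈ A, a = (2, v, 0, 0)) :
    lcut (vs V) (red E) Y ≤ (FF V E A).card := by
  classical
  unfold lcut
  rw [← Set.ncard_coe_finset]
  have key : ∀ a b : Lb, a ∈ Y → b ∈ vs V → b ∉ Y → red E a b = true →
      ∃ v ∈ A, a = (2, v, 0, 0) ∧ ((∃ w ∈ V, w ∉ A ∧ b = (2, w, 0, 0) ∧ ae E v w = true) ∨
        ∃ w ∈ V, ∃ c < 3, b = (3, w, c, 0) ∧ ¬ (c = 0 ∧ ae E v w = true)) := by
    intro a b h1 h2 h3 h4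
    rw [hY] at h1
    rw [mem_vs] at h2
    rcases h1 with h1 | ⟨v, hv, rfl⟩
    · exfalso
      obtain ⟨i, hi, rfl⟩ := mem_SS.1 h1
      rcases h2 with h2 | ⟨w, hw, rfl⟩ | ⟨w, hw, c, hc, e, he, rfl⟩
      · exact h3 ((hY _).2 (Or.inl (mem_SS.2 h2)))
      · simp [red] at h4
      · simp [red] at h4
    · refine ⟨v, hv, rfl, ?_⟩
      rcases h2 with h2 | ⟨w, hw, rfl⟩ | ⟨w, hw, c, hc, e, he, rfl⟩
      · exact absurd ((hY _).2 (Or.inl (mem_SS.2 h2))) h3
      · left
        refine ⟨w, hw, fun h5 => h3 ((hY _).2 (Or.inr ⟨w, h5, rfl⟩)), rfl, ?_⟩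
        simpa [red] using h4
      · right
        simp only [red, decide_true, Nat.reduceEqDiff, decide_false, Bool.and_false, Bool.true_and,
          Bool.false_and, Bool.or_false, Bool.false_or, Bool.and_self,
          valid, Bool.and_eq_true, decide_eq_true_eq, Bool.or_eq_true, Bool.not_eq_true',
          decide_eq_false_iff_not, OfNat.ofNat_ne_zero] at h4
        obtain ⟨rfl, h5⟩ := h4
        refine ⟨w, hw, c, hc, rfl, ?_⟩
        rintro ⟨h6, h7⟩
        rw [h7] at h5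
        rcases h5 with h5 | h5
        · exact h5 h6
        · exact absurd h5 (by simp)
  refine Set.ncard_le_ncard_of_injOn (fun q => (q.1.2.1,
    if q.2.1 = 2 then (q.2.2.1, 0) else (q.2.2.1, q.2.2.2.1))) ?_ ?_ (Finset.finite_toSet _)
  · rintro ⟨a, b⟩ ⟨h1, h2, h3, h4⟩
    simp only [FF, Finset.coe_filter, Finset.mem_product, List.mem_toFinset,
      Finset.mem_range, Set.mem_ofPred_eq]
    obtain ⟨v, hv, h5, h6⟩ := key a b h1 h2 h3 h4
    subst h5
    rcases h6 with ⟨w, hw, hwA, rfl, h7⟩ | ⟨w, hw, c, hc, rfl, h7⟩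
    · simp only [if_true]
      exact ⟨⟨hv, hw, by norm_num⟩, fun h8 => hwA h8.2.2⟩
    · simp only [Nat.reduceEqDiff, if_false]
      exact ⟨⟨hv, hw, hc⟩, fun h8 => h7 ⟨h8.1, h8.2.1⟩⟩
  · rintro ⟨a, b⟩ ⟨h1, h2, h3, h4⟩ ⟨a', b'⟩ ⟨h1', h2', h3', h4'⟩ h
    obtain ⟨v, hv, h5, h6⟩ := key a b h1 h2 h3 h4
    obtain ⟨v', hv', h5', h6'⟩ := key a' b' h1' h2' h3' h4'
    subst h5 h5'
    rcases h6 with ⟨w, hw, hwA, rfl, h7⟩ | ⟨w, hw, c, hc, rfl, h7⟩ <;>
      rcases h6' with ⟨w', hw', hwA', rfl, h7'⟩ | ⟨w', hw', c', hc', rfl, h7'⟩ <;>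
      simp only [if_true, Nat.reduceEqDiff, if_false, Prod.mk.injEq, and_true, true_and] at h ⊢
    · exact h
    · obtain ⟨rfl, rfl, rfl⟩ := h
      exact absurd ⟨rfl, h7⟩ h7'
    · obtain ⟨rfl, rfl, rfl⟩ := h
      exact absurd ⟨rfl, h7'⟩ h7
    · exact h

theorem blue_card (hV : V.Nodup) {Y : Set Lb} (hs : ((0, 0, 0, 0) : Lb) ∈ Y) :
    lcut (vs V) blue Y + (chosen V Y).card = V.length := by
  classical
  have h1 : lcut (vs V) blue Y = (V.toFinset.filter (fun v => ((2, v, 0, 0) : Lb) ∉ Y)).card := by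
    unfold lcut
    rw [← Set.ncard_coe_finset]
    have h2 : {q : Lb × Lb | q.1 ∈ Y ∧ q.2 ∈ vs V ∧ q.2 ∉ Y ∧ blue q.1 q.2 = true} =
        (fun v : ℕ => (((0, 0, 0, 0), (2, v, 0, 0)) : Lb × Lb)) ''
          ((V.toFinset.filter (fun v => ((2, v, 0, 0) : Lb) ∉ Y) : Finset ℕ) : Set ℕ) := by
      ext ⟨a, b⟩
      simp only [Set.mem_ofPred_eq, Finset.coe_filter, List.mem_toFinset, Set.mem_image,
        Prod.mk.injEq]
      constructor
      · rintro ⟨h1, h2, h3, h4⟩
        simp only [blue, Bool.and_eq_true, decide_eq_true_eq] at h4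
        rw [mem_vs] at h2
        obtain ⟨h5, h6⟩ := h4
        subst h5
        rcases h2 with ⟨i, hi, rfl⟩ | ⟨w, hw, rfl⟩ | ⟨w, hw, c, hc, e, he, rfl⟩
        · simp at h6
        · exact ⟨w, ⟨hw, h3⟩, rfl, rfl⟩
        · simp at h6
      · rintro ⟨v, ⟨h1, h2⟩, rfl, rfl⟩
        exact ⟨hs, mem_vs.2 (Or.inr (Or.inl ⟨v, h1, rfl⟩)), h2, by simp [blue]⟩
    rw [h2, Set.ncard_image_of_injective]
    intro v w h
    simpa using h
  rw [h1]
  unfold chosen
  rw [add_comm]
  have := Finset.card_filter_add_card_filter_not (s := V.toFinset)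
    (fun v => ((2, v, 0, 0) : Lb) ∈ Y)
  rw [List.toFinset_card_of_nodup hV] at this
  convert this using 2

/-- the correctness of the construction -/
theorem correct (hV : V.Nodup) {k : ℕ} (hk : k ≤ V.length) (hk2 : 2 ≤ k) :
    HasClique V E k ↔ ∃ X : Set (Fin (vs V).length), X.Nonempty ∧ X ≠ Set.univ ∧
      outCut (gR V E).Adj X ≤ rb V k ∧ outCut (gB V).Adj X ≤ V.length - k := by
  have hn := nodup_vs hV
  have hkk : k * k ≤ 3 * V.length * k + k := by nlinarith
  rw [hasClique_iff]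
  constructor
  · rintro ⟨A, h1, h2, h3⟩
    let Y : Set Lb := {a | a ∈ SS V ∨ ∃ v ∈ A, a = (2, v, 0, 0)}
    let X : Set (Fin (vs V).length) := {i | (vs V)[i] ∈ Y}
    have h00 : ((0, 0, 0, 0) : Lb) ∈ Y := Or.inl (mem_SS.2 ⟨0, KK_pos V, rfl⟩)
    have hY : ∀ a ∈ Y, a ∈ vs V := by
      rintro a (h | ⟨v, hv, rfl⟩)
      · exact mem_vs.2 (Or.inl (mem_SS.1 h))
      · exact mem_vs.2 (Or.inr (Or.inl ⟨v, h1 v hv, rfl⟩))
    have hlX : labs (vs V) X = Y := by
      ext a
      constructor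
      · rintro ⟨i, hi, rfl⟩
        exact hi
      · intro ha
        obtain ⟨i, hi, rfl⟩ := List.getElem_of_mem (hY a ha)
        exact ⟨⟨i, hi⟩, ha, rfl⟩
    refine ⟨X, ?_, ?_, ?_, ?_⟩
    · obtain ⟨i, hi, hi'⟩ := List.getElem_of_mem (hY _ h00)
      exact ⟨⟨i, hi⟩, show (vs V)[i] ∈ Y by rw [hi']; exact h00⟩
    · obtain ⟨v, hv⟩ : ∃ v, v ∈ V := List.exists_mem_of_length_pos (by omega)
      have hT : ((3, v, 0, 0) : Lb) ∈ vs V :=
        mem_vs.2 (Or.inr (Or.inr ⟨v, hv, 0, by norm_num, 0, KK_pos V, rfl⟩))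
      obtain ⟨i, hi, hi'⟩ := List.getElem_of_mem hT
      rw [Set.ne_univ_iff_exists_notMem]
      refine ⟨⟨i, hi⟩, ?_⟩
      intro h
      have h' : (vs V)[i] ∈ Y := h
      rw [hi'] at h'
      rcases h' with h' | ⟨w, _, h'⟩
      · obtain ⟨j, _, h'⟩ := mem_SS.1 h'
        simp at h'
      · simp at h'
    · have h4 := outCut_eq hn (red E) X
      change outCut (fun i j : Fin (vs V).length => red E (vs V)[i] (vs V)[j] = true) X ≤ _
      rw [h4, hlX]
      have h5 := upper (V := V) (E := E) Y (fun a => Iff.rfl)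
      have h6 := card_FF V hV E A h1
      have h7 := card_QQ_le E A
      rw [h2] at h3 h6 h7
      unfold rb
      omega
    · have h4 := outCut_eq hn blue X
      change outCut (fun i j : Fin (vs V).length => blue (vs V)[i] (vs V)[j] = true) X ≤ _
      rw [h4, hlX]
      have h5 := blue_card hV (Y := Y) h00
      have h6 : chosen V Y = A := by
        ext v
        rw [mem_chosen]
        constructor
        · rintro ⟨_, h | ⟨w, hw, h⟩⟩
          · obtain ⟨j, _, h'⟩ := mem_SS.1 h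
            simp at h'
          · simp only [Prod.mk.injEq, and_true, true_and] at h
            rw [h]; exact hw
        · intro h
          exact ⟨h1 v h, Or.inr ⟨v, h, rfl⟩⟩
      rw [h6, h2] at h5
      omega
  · rintro ⟨X, h1, h2, h3, h4⟩
    change outCut (fun i j : Fin (vs V).length => red E (vs V)[i] (vs V)[j] = true) X ≤ _ at h3
    change outCut (fun i j : Fin (vs V).length => blue (vs V)[i] (vs V)[j] = true) X ≤ _ at h4
    rw [outCut_eq hn] at h3 h4
    set Y := labs (vs V) X with hYdef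
    have hY : ∀ a ∈ Y, a ∈ vs V := fun a ha => labs_subset ha
    obtain ⟨i, hi⟩ := (Set.ne_univ_iff_exists_notMem X).1 h2
    have hz : (vs V)[i] ∉ Y := fun h => hi ((mem_labs hn).1 h)
    have hne : Y.Nonempty := h1.image _
    have hb : lcut (vs V) (red E) Y + 1 < KK V := by
      unfold rb at h3
      unfold KK
      have : 3 * V.length * k + k ≤ 3 * (V.length * V.length) + V.length := by nlinarith
      omega
    obtain ⟨h5, h6⟩ := forced hV (by omega) hY hne (List.getElem_mem _) hz hb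
    have h7 := lower (E := E) hY h6
    have h8 := blue_card hV (h5 _ (mem_SS.2 ⟨0, KK_pos V, rfl⟩))
    have hA : ∀ v ∈ chosen V Y, v ∈ V := fun v hv => (mem_chosen.1 hv).1
    have h9 := card_FF V hV E _ hA
    have h10 := card_QQ_le E (chosen V Y)
    have h11 : (chosen V Y).card ≤ V.length := by omega
    have h12 : k ≤ (chosen V Y).card := by omega
    have h13 := numeric h11 h12 h9 h10 (by unfold rb at h3; omega)
    exact ⟨chosen V Y, hA, h13.1, h13.2⟩

theorem disjoint_g (V : List ℕ) (E : List (ℕ × ℕ)) : Disjoint (gR V E) (gB V) := by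
  rw [disjoint_iff]
  ext i j
  simp only [Digraph.inf_adj, Digraph.bot_adj]
  exact ⟨fun h => disj E _ _ h, fun h => absurd h id⟩

theorem main_iff (I : (List ℕ × List (ℕ × ℕ)) × ℕ) (hI : IsGraph I.1.1 I.1.2 ∧ 2 ≤ I.2) :
    CLIQUE I ↔ DirectedRedBlueCut (inst I) := by
  obtain ⟨⟨V, E⟩, k⟩ := I
  obtain ⟨hG, hk2⟩ := hI
  simp only at hG hk2
  have hcl : CLIQUE ((V, E), k) ↔ HasClique V E k := ⟨fun h => h.2, fun h => ⟨hG, h⟩⟩
  rw [hcl]
  unfold inst
  by_cases hk : k ≤ V.length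
  · simp only [if_pos hk]
    rw [correct hG.1 hk hk2]
    constructor
    · rintro ⟨X, h⟩
      refine ⟨_, gR V E, gB V, ?_, ?_, disjoint_g V E, X, h⟩
      · rw [gR_matrix, gB_matrix]
      · intro v
        exact ⟨fun h' => by simp [gR, red_irrefl] at h', fun h' => by simp [gB, blue_irrefl] at h'⟩
    · rintro ⟨n, R, B, h1, h2, h3, X, h5⟩
      simp only [Prod.mk.injEq] at h1
      rw [← gR_matrix, ← gB_matrix] at h1
      have hn : (vs V).length = n := by
        have := congrArg List.length h1.1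
        simpa [dMatrix] using this
      subst hn
      have h6 := dMatrix_inj h1.1
      have h7 := dMatrix_inj h1.2
      subst h6 h7
      exact ⟨X, h5⟩
  · simp only [if_neg hk]
    constructor
    · rintro ⟨A, h1, h2, _⟩
      exfalso
      have h3 : A ⊆ V.toFinset := fun v hv => List.mem_toFinset.2 (h1 v hv)
      have h4 := Finset.card_le_card h3
      rw [List.toFinset_card_of_nodup hG.1] at h4
      omega
    · rintro ⟨n, R, B, h1, h2, h3, X, ⟨x, _⟩, h5⟩
      exfalso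
      simp only [Prod.mk.injEq] at h1
      have h6 := congrArg List.length h1.1
      simp only [List.length_nil, dMatrix, List.length_ofFn] at h6
      subst h6
      exact x.elim0

theorem valid_poly {α : Type} [TEnc α] {E : α → List (ℕ × ℕ)} {v : α → ℕ} {a : α → Lb}
    (h1 : Poly E) (h0 : Poly v) (h2 : Poly a) : Poly (fun x => valid (E x) (v x) (a x)) := by
  unfold valid
  fun_prop

attribute [local irreducible] valid
attribute [local fun_prop] valid_poly

theorem red_poly {α : Type} [TEnc α] {E : α → List (ℕ × ℕ)} {a b : α → Lb} (h1 : Poly E)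
    (h2 : Poly a) (h3 : Poly b) : Poly (fun x => red (E x) (a x) (b x)) := by
  unfold red
  fun_prop

theorem blue_poly {α : Type} [TEnc α] {a b : α → Lb}
    (h2 : Poly a) (h3 : Poly b) : Poly (fun x => blue (a x) (b x)) := by
  unfold blue
  fun_prop

attribute [local irreducible] red blue
attribute [local fun_prop] red_poly blue_poly

theorem vs_poly {α : Type} [TEnc α] {V : α → List ℕ} (h1 : Poly V) : Poly (fun x => vs (V x)) := by
  have h2 : UPoly (fun x => (V x).length) := UPoly.length h1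
  have h3 : UPoly (fun x => KK (V x)) :=
    (((UPoly.const 4).mul (h2.mul h2)).add h2).add (UPoly.const 2)
  have h4 := h3.range
  unfold vs
  refine NPC.Poly.append (NPC.Poly.map h4 (by fun_prop)) (NPC.Poly.append (by fun_prop) ?_)
  refine NPC.Poly.map (poly_product h1 (poly_product (by fun_prop) h4)) (by fun_prop)

attribute [local irreducible] vs
attribute [local fun_prop] vs_poly

theorem inst_poly : Poly inst := by
  unfold inst rb
  fun_prop

/-- the hardness of the directed problem -/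
theorem hardI : HardI DirectedRedBlueCut := (hardPr_CLIQUE.trans (Pr' := fun _ => True) inst_poly
  (fun _ _ => trivial) (fun I hI => main_iff I hI)).toHardI

end

end Pool.Agent.Y599.RB.Dir
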