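import Pool.Agent.Y599.RB.Defs
import Pool.Agent.H634R2.Clique
import Pool.Agent.H671R2.PolyAuto

/-!
# Cuts of graphs given by lists of labels
-/

namespace Pool.Agent.Y599.RB

open Pool.Agent.NPC Pool.Agent.NPC.R671 Pool.Agent.NPC.H634R2

variable {Λ : Type}

/-- the number of arcs leaving a set of labels -/
noncomputable def lcut (vs : List Λ) (ad : Λ → Λ → Bool) (Y : Set Λ) : ℕ :=
  {q : Λ × Λ | q.1 ∈ Y ∧ q.2 ∈ vs ∧ q.2 ∉ Y ∧ ad q.1 q.2 = true}.ncard

/-- the set of labels of a set of indices -/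
def labs (vs : List Λ) (X : Set (Fin vs.length)) : Set Λ := (fun i : Fin vs.length => vs[i]) '' X

theorem lab_inj {vs : List Λ} (hn : vs.Nodup) :
    Function.Injective (fun i : Fin vs.length => vs[i]) := fun i j hij =>
  Fin.ext ((List.Nodup.getElem_inj_iff hn).1 hij)

theorem mem_labs {vs : List Λ} (hn : vs.Nodup) {X : Set (Fin vs.length)} {i : Fin vs.length} :
    vs[i] ∈ labs vs X ↔ i ∈ X :=
  (lab_inj hn).mem_set_image

theorem labs_subset {vs : List Λ} {X : Set (Fin vs.length)} {a : Λ} (h : a ∈ labs vs X) :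
    a ∈ vs := by
  obtain ⟨i, _, rfl⟩ := h
  exact List.getElem_mem _

theorem outCut_eq {vs : List Λ} (hn : vs.Nodup) (ad : Λ → Λ → Bool) (X : Set (Fin vs.length)) :
    outCut (fun i j : Fin vs.length => ad vs[i] vs[j] = true) X = lcut vs ad (labs vs X) := by
  unfold outCut lcut
  have hinj : Function.Injective (fun p : Fin vs.length × Fin vs.length => (vs[p.1], vs[p.2])) := by
    intro p q h
    simp only [Prod.mk.injEq] at h
    exact Prod.ext (lab_inj hn h.1) (lab_inj hn h.2)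
  rw [← Set.ncard_image_of_injective _ hinj]
  congr 1
  ext ⟨a, b⟩
  simp only [Set.mem_image, Set.mem_ofPred_eq, Prod.mk.injEq, Prod.exists]
  constructor
  · rintro ⟨i, j, ⟨h1, h2, h3⟩, rfl, rfl⟩
    exact ⟨(mem_labs hn).2 h1, List.getElem_mem _, fun h => h2 ((mem_labs hn).1 h), h3⟩
  · rintro ⟨h1, h2, h3, h4⟩
    obtain ⟨i, hi, rfl⟩ := h1
    obtain ⟨j, hj, rfl⟩ := List.getElem_of_mem h2
    exact ⟨i, ⟨j, hj⟩, ⟨hi, fun h => h3 ((mem_labs hn).2 h), h4⟩, rfl, rfl⟩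

theorem lcut_finite (vs : List Λ) (ad : Λ → Λ → Bool) {Y : Set Λ} (hY : ∀ a ∈ Y, a ∈ vs) :
    {q : Λ × Λ | q.1 ∈ Y ∧ q.2 ∈ vs ∧ q.2 ∉ Y ∧ ad q.1 q.2 = true}.Finite := by
  have h : {q : Λ × Λ | q.1 ∈ vs ∧ q.2 ∈ vs}.Finite := by
    have h1 : {a : Λ | a ∈ vs}.Finite := List.finite_toSet vs
    exact (h1.prod h1).subset fun q hq => ⟨hq.1, hq.2⟩
  exact h.subset fun q hq => ⟨hY _ hq.1, hq.2.1⟩

/-- adjacency of vertex numbers in a list of edges -/
def ae (E : List (ℕ × ℕ)) (u v : ℕ) : Bool := !decide (u = v) && (decide ((u, v) ∈ E) || decide ((v, u) ∈ E))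

theorem ae_symm (E : List (ℕ × ℕ)) (u v : ℕ) : ae E u v = ae E v u := by
  unfold ae
  have : decide (u = v) = decide (v = u) := by
    rw [decide_eq_decide]; exact eq_comm
  rw [this, Bool.or_comm]

theorem ae_irrefl (E : List (ℕ × ℕ)) (u : ℕ) : ae E u u = false := by
  simp [ae]

theorem ae_iff {E : List (ℕ × ℕ)} {u v : ℕ} :
    ae E u v = true ↔ u ≠ v ∧ ((u, v) ∈ E ∨ (v, u) ∈ E) := by
  simp [ae]

theorem ae_poly {α : Type} [TEnc α] {E : α → List (ℕ × ℕ)} {u v : α → ℕ} (h1 : Poly E)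
    (h2 : Poly u) (h3 : Poly v) : Poly (fun a => ae (E a) (u a) (v a)) := by
  unfold ae
  fun_prop

attribute [fun_prop] ae_poly

/-- the triples counted by the red cut -/
def FF (V : List ℕ) (E : List (ℕ × ℕ)) (A : Finset ℕ) : Finset (ℕ × ℕ × ℕ) :=
  (A ×ˢ (V.toFinset ×ˢ Finset.range 3)).filter
    (fun x => ¬ (x.2.2 = 0 ∧ ae E x.1 x.2.1 = true ∧ x.2.1 ∈ A))

/-- the adjacent pairs inside `A` -/
def QQ (E : List (ℕ × ℕ)) (A : Finset ℕ) : Finset (ℕ × ℕ) :=
  (A ×ˢ A).filter (fun x => ae E x.1 x.2 = true)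

theorem card_FF (V : List ℕ) (hV : V.Nodup) (E : List (ℕ × ℕ)) (A : Finset ℕ)
    (hA : ∀ v ∈ A, v ∈ V) : (FF V E A).card + (QQ E A).card = 3 * V.length * A.card := by
  have h1 : (QQ E A).card = ((A ×ˢ (V.toFinset ×ˢ Finset.range 3)).filter
    (fun x => (x.2.2 = 0 ∧ ae E x.1 x.2.1 = true ∧ x.2.1 ∈ A))).card := by
    refine Finset.card_bij (fun x _ => (x.1, x.2, 0)) ?_ ?_ ?_
    · rintro ⟨u, v⟩ h
      simp only [QQ, Finset.mem_filter, Finset.mem_product] at h
      simp only [Finset.mem_filter, Finset.mem_product, List.mem_toFinset, Finset.mem_range]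
      exact ⟨⟨h.1.1, hA _ h.1.2, by norm_num⟩, trivial, h.2, h.1.2⟩
    · rintro ⟨u, v⟩ _ ⟨u', v'⟩ _ h
      simp only [Prod.mk.injEq, and_true] at h
      exact Prod.ext h.1 h.2
    · rintro ⟨u, v, c⟩ h
      simp only [Finset.mem_filter, Finset.mem_product] at h
      refine ⟨(u, v), ?_, ?_⟩
      · simp only [QQ, Finset.mem_filter, Finset.mem_product]
        exact ⟨⟨h.1.1, h.2.2.2⟩, h.2.2.1⟩
      · simp [h.2.1]
  rw [h1, FF, add_comm, Finset.card_filter_add_card_filter_not, Finset.card_product,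
    Finset.card_product, Finset.card_range, List.toFinset_card_of_nodup hV]
  ring

theorem card_QQ_le (E : List (ℕ × ℕ)) (A : Finset ℕ) : (QQ E A).card + A.card ≤ A.card * A.card := by
  have h1 : QQ E A ⊆ A.offDiag := by
    rintro ⟨u, v⟩ h
    simp only [QQ, Finset.mem_filter, Finset.mem_product] at h
    simp only [Finset.mem_offDiag]
    exact ⟨h.1.1, h.1.2, (ae_iff.1 h.2).1⟩
  have h2 := Finset.card_le_card h1
  have h3 := A.offDiag_card
  have h4 : A.card ≤ A.card * A.card := Nat.le_mul_self _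
  omega

theorem clique_of_card {E : List (ℕ × ℕ)} {A : Finset ℕ}
    (h : A.card * A.card ≤ (QQ E A).card + A.card) :
    ∀ u ∈ A, ∀ v ∈ A, u ≠ v → (u, v) ∈ E ∨ (v, u) ∈ E := by
  have h1 : QQ E A ⊆ A.offDiag := by
    rintro ⟨u, v⟩ h
    simp only [QQ, Finset.mem_filter, Finset.mem_product] at h
    simp only [Finset.mem_offDiag]
    exact ⟨h.1.1, h.1.2, (ae_iff.1 h.2).1⟩
  have h3 := A.offDiag_card
  have h5 : QQ E A = A.offDiag := by
    apply Finset.eq_of_subset_of_card_le h1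
    rw [h3]
    omega
  intro u hu v hv huv
  have h6 : (u, v) ∈ QQ E A := by
    rw [h5, Finset.mem_offDiag]
    exact ⟨hu, hv, huv⟩
  simp only [QQ, Finset.mem_filter] at h6
  exact (ae_iff.1 h6.2).2

theorem card_of_clique {E : List (ℕ × ℕ)} {A : Finset ℕ}
    (h : ∀ u ∈ A, ∀ v ∈ A, u ≠ v → (u, v) ∈ E ∨ (v, u) ∈ E) :
    (QQ E A).card + A.card = A.card * A.card := by
  have h1 : QQ E A = A.offDiag := by
    ext ⟨u, v⟩
    simp only [QQ, Finset.mem_filter, Finset.mem_product, Finset.mem_offDiag, ae_iff]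
    constructor
    · rintro ⟨⟨h1, h2⟩, h3, _⟩
      exact ⟨h1, h2, h3⟩
    · rintro ⟨h1, h2, h3⟩
      exact ⟨⟨h1, h2⟩, h3, h u h1 v h2 h3⟩
  have h3 := A.offDiag_card
  have h4 : A.card ≤ A.card * A.card := Nat.le_mul_self _
  rw [h1, h3]
  omega

/-- the numerical core: a large set with few red cut edges is a clique of size `k` -/
theorem numeric {n a k f q : ℕ} (han : a ≤ n) (hka : k ≤ a) (h1 : f + q = 3 * n * a)
    (h2 : q + a ≤ a * a) (h3 : f + k * k ≤ 3 * n * k + k) : a = k ∧ a * a ≤ q + a := by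
  obtain ⟨d, rfl⟩ := Nat.exists_eq_add_of_le hka
  rcases Nat.eq_zero_or_pos d with rfl | hd
  · refine ⟨rfl, ?_⟩
    simp only [add_zero] at *
    omega
  · exfalso
    have e1 : 3 * n * (k + d) = 3 * n * k + 3 * n * d := by ring
    have e2 : (k + d) * (k + d) = k * k + 2 * k * d + d * d := by ring
    rw [e1] at h1
    rw [e2] at h2
    have e3 : 2 * k * d + d * d ≤ 2 * n * d := by nlinarith
    have e4 : 0 < n * d := by
      have : 0 < n := by omega
      positivity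
    nlinarith

/-- The clique problem for the pair of lists. -/
theorem hasClique_iff {V : List ℕ} {E : List (ℕ × ℕ)} {k : ℕ} : HasClique V E k ↔
    ∃ A : Finset ℕ, (∀ v ∈ A, v ∈ V) ∧ A.card = k ∧ A.card * A.card ≤ (QQ E A).card + A.card := by
  constructor
  · rintro ⟨A, h1, h2, h3⟩
    exact ⟨A, h1, h2, (card_of_clique h3).ge⟩
  · rintro ⟨A, h1, h2, h3⟩
    exact ⟨A, h1, h2, clique_of_card h3⟩

end Pool.Agent.Y599.RB
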