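import Pool.Agent.Y599.RB.Lab

/-!
# The undirected `s`-`t` problem: reduction from the clique problem
-/

namespace Pool.Agent.Y599.RB.Und

open Pool.Agent.NPC Pool.Agent.NPC.R671 Pool.Agent.NPC.H634R2 Pool.Agent.Y599.RB

/-- labels of vertices: `(0,0,0,0)` is `s`, `(1,0,0,0)` is `t`, `(2,v,0,0)` is the vertex `v` of the
given graph, `(3,v,w,c)` is the middle of a path from `v` to `t` -/
abbrev Lb := ℕ × ℕ × ℕ × ℕ

/-- is the path from `v` to `t` present? -/
def valid (E : List (ℕ × ℕ)) (a : Lb) : Bool := !decide (a.2.2.2 = 0) || !ae E a.2.1 a.2.2.1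

/-- half of the adjacency of the red graph -/
def rh (E : List (ℕ × ℕ)) (a b : Lb) : Bool :=
  ((decide (a.1 = 2) && decide (b.1 = 2)) && ae E a.2.1 b.2.1) ||
  (((decide (a.1 = 2) && decide (b.1 = 3)) && (decide (a.2.1 = b.2.1) && valid E b)) ||
  ((decide (a.1 = 3) && decide (b.1 = 1)) && valid E a))

/-- adjacency of the red graph -/
def red (E : List (ℕ × ℕ)) (a b : Lb) : Bool := rh E a b || rh E b a

/-- adjacency of the blue graph -/
def blue (a b : Lb) : Bool :=
  (decide (a.1 = 0) && decide (b.1 = 2)) || (decide (b.1 = 0) && decide (a.1 = 2))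

/-- the vertices -/
def vs (V : List ℕ) : List Lb :=
  (0, 0, 0, 0) :: (1, 0, 0, 0) :: (V.map (fun v => (2, v, 0, 0)) ++
    (V ×ˢ (V ×ˢ [0, 1, 2])).map (fun x => (3, x.1, x.2.1, x.2.2)))

theorem mem_vs {V : List ℕ} {a : Lb} : a ∈ vs V ↔ a = (0, 0, 0, 0) ∨ a = (1, 0, 0, 0) ∨
    (∃ v ∈ V, a = (2, v, 0, 0)) ∨ ∃ v ∈ V, ∃ w ∈ V, ∃ c < 3, a = (3, v, w, c) := by
  unfold vs
  simp only [List.mem_cons, List.mem_append, List.mem_map, List.mem_product,
    Prod.exists, List.not_mem_nil, or_false]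
  constructor
  · rintro (h | h | ⟨v, h1, h2⟩ | ⟨v, w, c, ⟨h1, h2, h3⟩, h4⟩)
    · exact Or.inl h
    · exact Or.inr (Or.inl h)
    · exact Or.inr (Or.inr (Or.inl ⟨v, h1, h2.symm⟩))
    · exact Or.inr (Or.inr (Or.inr ⟨v, h1, w, h2, c, by omega, h4.symm⟩))
  · rintro (h | h | ⟨v, h1, h2⟩ | ⟨v, h1, w, h2, c, h3, h4⟩)
    · exact Or.inl h
    · exact Or.inr (Or.inl h)
    · exact Or.inr (Or.inr (Or.inl ⟨v, h1, h2.symm⟩))
    · exact Or.inr (Or.inr (Or.inr ⟨v, w, c, ⟨h1, h2, by omega⟩, h4.symm⟩))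

theorem nodup_vs {V : List ℕ} (hV : V.Nodup) : (vs V).Nodup := by
  unfold vs
  rw [List.nodup_cons, List.nodup_cons, List.nodup_append]
  refine ⟨?_, ?_, ?_, ?_, ?_⟩
  · simp
  · simp
  · exact hV.map fun a b h => by simpa using h
  · refine (hV.product (hV.product (by decide))).map ?_
    rintro ⟨a, b, c⟩ ⟨a', b', c'⟩ h
    simpa using h
  · intro a ha b hb hab
    simp only [List.mem_map] at ha hb
    obtain ⟨v, _, rfl⟩ := ha
    obtain ⟨x, _, rfl⟩ := hb
    simp at hab

theorem red_symm (E : List (ℕ × ℕ)) (a b : Lb) : red E a b = red E b a := by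
  unfold red
  rw [Bool.or_comm]

theorem rh_irrefl (E : List (ℕ × ℕ)) (a : Lb) : rh E a a = false := by
  obtain ⟨x, y, z, w⟩ := a
  simp only [rh, ae_irrefl, Bool.and_false, Bool.false_or]
  by_cases h : x = 2
  · subst h; simp
  · by_cases h' : x = 3
    · subst h'; simp
    · simp [h, h']

theorem red_irrefl (E : List (ℕ × ℕ)) (a : Lb) : red E a a = false := by
  unfold red
  rw [rh_irrefl, Bool.or_self]

theorem blue_symm (a b : Lb) : blue a b = blue b a := by
  unfold blue
  rw [Bool.or_comm]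

theorem blue_irrefl (a : Lb) : blue a a = false := by
  obtain ⟨x, y, z, w⟩ := a
  simp only [blue, Bool.or_self, Bool.and_eq_false_iff, decide_eq_false_iff_not]
  omega

theorem disj (E : List (ℕ × ℕ)) (a b : Lb) : ¬ (red E a b = true ∧ blue a b = true) := by
  obtain ⟨x, y, z, w⟩ := a
  obtain ⟨x', y', z', w'⟩ := b
  simp only [red, rh, blue, Bool.or_eq_true, Bool.and_eq_true, decide_eq_true_eq]
  omega

/-- the budget for red edges -/
def rb (V : List ℕ) (k : ℕ) : ℕ := 3 * V.length * k + k - k * k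

/-- the instance -/
def inst (I : (List ℕ × List (ℕ × ℕ)) × ℕ) :
    (List (List Bool) × List (List Bool)) × (ℕ × ℕ) × (ℕ × ℕ) :=
  if I.2 ≤ I.1.1.length then
    (((vs I.1.1).map (fun a => (vs I.1.1).map (fun b => red I.1.2 a b)),
      (vs I.1.1).map (fun a => (vs I.1.1).map (fun b => blue a b))), (0, 1),
      (rb I.1.1 I.2, I.1.1.length - I.2))
  else (([], []), (0, 0), (0, 0))

/-- the red graph -/
def gR (V : List ℕ) (E : List (ℕ × ℕ)) : SimpleGraph (Fin (vs V).length) :=
  listGraph (vs V) (red E) (red_symm E) (red_irrefl E)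

/-- the blue graph -/
def gB (V : List ℕ) : SimpleGraph (Fin (vs V).length) :=
  listGraph (vs V) blue blue_symm blue_irrefl

section

variable {V : List ℕ} {E : List (ℕ × ℕ)}

/-- the chosen vertices -/
noncomputable def chosen (V : List ℕ) (Y : Set Lb) : Finset ℕ :=
  open Classical in V.toFinset.filter (fun v => ((2, v, 0, 0) : Lb) ∈ Y)

theorem mem_chosen {Y : Set Lb} {v : ℕ} : v ∈ chosen V Y ↔ v ∈ V ∧ ((2, v, 0, 0) : Lb) ∈ Y := by
  simp [chosen]

/-- the cut edge counted for a triple -/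
noncomputable def phi (E : List (ℕ × ℕ)) (Y : Set Lb) (x : ℕ × ℕ × ℕ) : Lb × Lb :=
  open Classical in
  if x.2.2 = 0 ∧ ae E x.1 x.2.1 = true then ((2, x.1, 0, 0), (2, x.2.1, 0, 0))
  else if ((3, x.1, x.2.1, x.2.2) : Lb) ∈ Y then ((3, x.1, x.2.1, x.2.2), (1, 0, 0, 0))
  else ((2, x.1, 0, 0), (3, x.1, x.2.1, x.2.2))

theorem lower (hV : V.Nodup) {Y : Set Lb} (hY : ∀ a ∈ Y, a ∈ vs V) (ht : ((1, 0, 0, 0) : Lb) ∉ Y) :
    (FF V E (chosen V Y)).card ≤ lcut (vs V) (red E) Y := by
  classical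
  unfold lcut
  rw [← Set.ncard_coe_finset]
  refine Set.ncard_le_ncard_of_injOn (phi E Y) ?_ ?_ (lcut_finite _ _ hY)
  · rintro ⟨v, w, c⟩ h
    simp only [FF, Finset.coe_filter, Finset.mem_product, mem_chosen, List.mem_toFinset,
      Finset.mem_range, Set.mem_ofPred_eq] at h
    obtain ⟨⟨⟨h1, h2⟩, h3, h4⟩, h5⟩ := h
    simp only [phi]
    split_ifs with h6 h7
    · refine ⟨h2, mem_vs.2 (Or.inr (Or.inr (Or.inl ⟨w, h3, rfl⟩))), fun h8 => h5 ⟨h6.1, h6.2, h3, h8⟩,
        ?_⟩
      simp only [red, rh, h6.2, decide_true, Bool.and_self, Bool.true_or]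
    · refine ⟨h7, mem_vs.2 (Or.inr (Or.inl rfl)), ht, ?_⟩
      have : valid E (3, v, w, c) = true := by
        simp only [valid, Bool.or_eq_true, Bool.not_eq_true', decide_eq_false_iff_not]
        by_contra hc
        push Not at hc
        exact h6 ⟨hc.1, by simpa using hc.2⟩
      simp [red, rh, this]
    · refine ⟨h2, mem_vs.2 (Or.inr (Or.inr (Or.inr ⟨v, h1, w, h3, c, h4, rfl⟩))), h7, ?_⟩
      have : valid E (3, v, w, c) = true := by
        simp only [valid, Bool.or_eq_true, Bool.not_eq_true', decide_eq_false_iff_not]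
        by_contra hc
        push Not at hc
        exact h6 ⟨hc.1, by simpa using hc.2⟩
      simp [red, rh, this]
  · rintro ⟨v, w, c⟩ _ ⟨v', w', c'⟩ _ h
    simp only [phi] at h
    split_ifs at h with h1 h2 h3 h4 h5 h6 h7 h8
    all_goals simp only [Prod.mk.injEq, OfNat.ofNat_ne_zero, OfNat.ofNat_ne_one, Nat.reduceEqDiff,
      and_true, false_and, and_false, true_and] at h ⊢
    · obtain ⟨h9, h10⟩ := h
      exact ⟨h9, h10, by rw [h1.1, h2.1]⟩
    · exact h
    · exact h.2

theorem upper {A : Finset ℕ} (hA : ∀ v ∈ A, v ∈ V) (Y : Set Lb)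
    (hY : ∀ a, a ∈ Y ↔ a = (0, 0, 0, 0) ∨ ∃ v ∈ A, a = (2, v, 0, 0)) :
    lcut (vs V) (red E) Y ≤ (FF V E A).card := by
  classical
  unfold lcut
  rw [← Set.ncard_coe_finset]
  refine Set.ncard_le_ncard_of_injOn (fun q => (q.1.2.1,
    if q.2.1 = 2 then (q.2.2.1, 0) else (q.2.2.2.1, q.2.2.2.2))) ?_ ?_ (Finset.finite_toSet _)
  · rintro ⟨a, b⟩ ⟨h1, h2, h3, h4⟩
    simp only at h1 h2 h3 h4
    simp only [FF, Finset.coe_filter, Finset.mem_product, List.mem_toFinset,
      Finset.mem_range, Set.mem_ofPred_eq]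
    rw [hY] at h1
    rw [mem_vs] at h2
    rcases h1 with rfl | ⟨v, hv, rfl⟩
    · exfalso
      rcases h2 with rfl | rfl | ⟨w, hw, rfl⟩ | ⟨v', hv', w, hw, c, hc, rfl⟩ <;>
        simp [red, rh] at h4
    · rcases h2 with rfl | rfl | ⟨w, hw, rfl⟩ | ⟨v', hv', w, hw, c, hc, rfl⟩
      · simp [red, rh] at h4
      · simp [red, rh] at h4
      · simp only [red, rh, ae_symm E w v, decide_true, Bool.and_self, Bool.true_and,
          Nat.reduceEqDiff, decide_false, Bool.and_false, Bool.false_and,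
          Bool.or_false, Bool.or_self] at h4
        simp only [if_true]
        refine ⟨⟨hv, hw, by norm_num⟩, ?_⟩
        rintro ⟨_, _, h5⟩
        exact h3 ((hY _).2 (Or.inr ⟨w, h5, rfl⟩))
      · simp only [red, rh, decide_true, Bool.and_self, Bool.true_and,
          Nat.reduceEqDiff, decide_false, Bool.and_false, Bool.false_and, Bool.or_false,
          Bool.false_or, Bool.and_eq_true, decide_eq_true_eq, OfNat.ofNat_ne_one] at h4
        obtain ⟨rfl, h5⟩ := h4
        simp only [Nat.reduceEqDiff, if_false]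
        refine ⟨⟨hv, hw, hc⟩, ?_⟩
        rintro ⟨h6, h7, _⟩
        simp [valid, h6, h7] at h5
  · rintro ⟨a, b⟩ ⟨h1, h2, h3, h4⟩ ⟨a', b'⟩ ⟨h1', h2', h3', h4'⟩ h
    simp only at h1 h2 h3 h4 h1' h2' h3' h4' h
    rw [hY] at h1 h1'
    rw [mem_vs] at h2 h2'
    rcases h1 with rfl | ⟨v, hv, rfl⟩
    · exfalso
      rcases h2 with rfl | rfl | ⟨w, hw, rfl⟩ | ⟨v', hv', w, hw, c, hc, rfl⟩ <;>
        simp [red, rh] at h4
    rcases h1' with rfl | ⟨v', hv', rfl⟩
    · exfalso
      rcases h2' with rfl | rfl | ⟨w, hw, rfl⟩ | ⟨v', hv', w, hw, c, hc, rfl⟩ <;>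
        simp [red, rh] at h4'
    rcases h2 with rfl | rfl | ⟨w, hw, rfl⟩ | ⟨u, hu, w, hw, c, hc, rfl⟩
    · simp [red, rh] at h4
    · simp [red, rh] at h4
    · rcases h2' with rfl | rfl | ⟨w', hw', rfl⟩ | ⟨u', hu', w', hw', c', hc', rfl⟩
      · simp [red, rh] at h4'
      · simp [red, rh] at h4'
      · simp only [if_true, Prod.mk.injEq, and_true, true_and] at h ⊢
        exact h
      · exfalso
        simp only [if_true, Nat.reduceEqDiff, if_false, Prod.mk.injEq] at h
        obtain ⟨rfl, rfl, rfl⟩ := h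
        simp [red, rh, valid, ae_symm E w v] at h4 h4'
        obtain ⟨rfl, h4'⟩ := h4'
        rw [h4] at h4'
        simp at h4'
    · rcases h2' with rfl | rfl | ⟨w', hw', rfl⟩ | ⟨u', hu', w', hw', c', hc', rfl⟩
      · simp [red, rh] at h4'
      · simp [red, rh] at h4'
      · exfalso
        simp only [if_true, Nat.reduceEqDiff, if_false, Prod.mk.injEq] at h
        obtain ⟨rfl, rfl, rfl⟩ := h
        simp [red, rh, valid, ae_symm E w v] at h4 h4'
        obtain ⟨rfl, h4⟩ := h4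
        rw [h4'] at h4
        simp at h4
      · simp only [Nat.reduceEqDiff, if_false, Prod.mk.injEq, true_and, and_true] at h ⊢
        have h5 : v = u := by
          simp [red, rh] at h4
          exact h4.1
        have h6 : v' = u' := by
          simp [red, rh] at h4'
          exact h4'.1
        refine ⟨h.1, ?_, h.2⟩
        rw [← h5, ← h6]
        exact h.1

theorem blue_card (hV : V.Nodup) {Y : Set Lb} (hs : ((0, 0, 0, 0) : Lb) ∈ Y)
    (hY : ∀ a ∈ Y, a ∈ vs V) :
    lcut (vs V) blue Y + (chosen V Y).card = V.length := by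
  classical
  have h1 : lcut (vs V) blue Y = (V.toFinset.filter (fun v => ((2, v, 0, 0) : Lb) ∉ Y)).card := by
    unfold lcut
    rw [← Set.ncard_coe_finset]
    have h2 : {q : Lb × Lb | q.1 ∈ Y ∧ q.2 ∈ vs V ∧ q.2 ∉ Y ∧ blue q.1 q.2 = true} =
        (fun v : ℕ => (((0, 0, 0, 0), (2, v, 0, 0)) : Lb × Lb)) ''
          ((V.toFinset.filter (fun v => ((2, v, 0, 0) : Lb) ∉ Y) : Finset ℕ) : Set ℕ) := by
      ext ⟨a, b⟩
      simp only [Set.mem_ofPred_eq, Finset.coe_filter, List.mem_toFinset, Set.mem_image,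
        Prod.mk.injEq]
      constructor
      · rintro ⟨h1, h2, h3, h4⟩
        have h5 := mem_vs.1 (hY _ h1)
        rw [mem_vs] at h2
        rcases h5 with rfl | rfl | ⟨w, hw, rfl⟩ | ⟨v', hv', w, hw, c, hc, rfl⟩
        · rcases h2 with rfl | rfl | ⟨w, hw, rfl⟩ | ⟨v', hv', w, hw, c, hc, rfl⟩
          · simp [blue] at h4
          · simp [blue] at h4
          · exact ⟨w, ⟨hw, h3⟩, rfl, rfl⟩
          · simp [blue] at h4
        · rcases h2 with rfl | rfl | ⟨w, hw, rfl⟩ | ⟨v', hv', w, hw, c, hc, rfl⟩ <;>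
            simp [blue] at h4
        · rcases h2 with rfl | rfl | ⟨w, hw, rfl⟩ | ⟨v', hv', w, hw, c, hc, rfl⟩
          · exact absurd hs h3
          · simp [blue] at h4
          · simp [blue] at h4
          · simp [blue] at h4
        · rcases h2 with rfl | rfl | ⟨w, hw, rfl⟩ | ⟨v', hv', w, hw, c, hc, rfl⟩ <;>
            simp [blue] at h4
      · rintro ⟨v, ⟨h1, h2⟩, rfl, rfl⟩
        exact ⟨hs, mem_vs.2 (Or.inr (Or.inr (Or.inl ⟨v, h1, rfl⟩))), h2, by simp [blue]⟩
    rw [h2, Set.ncard_image_of_injective]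
    intro v w h
    simpa using h
  rw [h1]
  unfold chosen
  rw [add_comm]
  have := Finset.card_filter_add_card_filter_not (s := V.toFinset)
    (fun v => ((2, v, 0, 0) : Lb) ∈ Y)
  rw [List.toFinset_card_of_nodup hV] at this
  convert this using 2

theorem idx0 (V : List ℕ) : 0 < (vs V).length := by simp [vs]
theorem idx1 (V : List ℕ) : 1 < (vs V).length := by simp [vs]

/-- the correctness of the construction -/
theorem correct (hV : V.Nodup) {k : ℕ} (hk : k ≤ V.length) :
    HasClique V E k ↔ ∃ X : Set (Fin (vs V).length), (⟨0, idx0 V⟩ : Fin (vs V).length) ∈ X ∧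
      (⟨1, idx1 V⟩ : Fin (vs V).length) ∉ X ∧
      outCut (gR V E).Adj X ≤ rb V k ∧ outCut (gB V).Adj X ≤ V.length - k := by
  have hn := nodup_vs hV
  have e0 : (vs V)[(⟨0, idx0 V⟩ : Fin (vs V).length)] = (0, 0, 0, 0) := rfl
  have e1 : (vs V)[(⟨1, idx1 V⟩ : Fin (vs V).length)] = (1, 0, 0, 0) := rfl
  have hkk : k * k ≤ 3 * V.length * k + k := by nlinarith
  rw [hasClique_iff]
  constructor
  · rintro ⟨A, h1, h2, h3⟩
    let Y : Set Lb := {a | a = (0, 0, 0, 0) ∨ ∃ v ∈ A, a = (2, v, 0, 0)}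
    let X : Set (Fin (vs V).length) := {i | (vs V)[i] ∈ Y}
    have hY : ∀ a ∈ Y, a ∈ vs V := by
      rintro a (rfl | ⟨v, hv, rfl⟩)
      · exact mem_vs.2 (Or.inl rfl)
      · exact mem_vs.2 (Or.inr (Or.inr (Or.inl ⟨v, h1 v hv, rfl⟩)))
    have hlX : labs (vs V) X = Y := by
      ext a
      constructor
      · rintro ⟨i, hi, rfl⟩
        exact hi
      · intro ha
        obtain ⟨i, hi, rfl⟩ := List.getElem_of_mem (hY a ha)
        exact ⟨⟨i, hi⟩, ha, rfl⟩
    refine ⟨X, Or.inl e0, ?_, ?_, ?_⟩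
    · rintro (h | ⟨v, _, h⟩) <;> · rw [e1] at h; simp at h
    · have h4 := outCut_eq hn (red E) X
      change outCut (fun i j : Fin (vs V).length => red E (vs V)[i] (vs V)[j] = true) X ≤ _
      rw [h4, hlX]
      have h5 := upper (V := V) (E := E) h1 Y (fun a => Iff.rfl)
      have h6 := card_FF V hV E A h1
      have h7 := card_QQ_le E A
      rw [h2] at h3 h6 h7
      unfold rb
      omega
    · have h4 := outCut_eq hn blue X
      change outCut (fun i j : Fin (vs V).length => blue (vs V)[i] (vs V)[j] = true) X ≤ _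
      rw [h4, hlX]
      have h5 := blue_card hV (Y := Y) (Or.inl rfl) hY
      have h6 : chosen V Y = A := by
        ext v
        rw [mem_chosen]
        constructor
        · rintro ⟨_, h | ⟨w, hw, h⟩⟩
          · simp at h
          · simp only [Prod.mk.injEq, and_true, true_and] at h
            rw [h]; exact hw
        · intro h
          exact ⟨h1 v h, Or.inr ⟨v, h, rfl⟩⟩
      rw [h6, h2] at h5
      omega
  · rintro ⟨X, h1, h2, h3, h4⟩
    change outCut (fun i j : Fin (vs V).length => red E (vs V)[i] (vs V)[j] = true) X ≤ _ at h3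
    change outCut (fun i j : Fin (vs V).length => blue (vs V)[i] (vs V)[j] = true) X ≤ _ at h4
    rw [outCut_eq hn] at h3 h4
    set Y := labs (vs V) X with hYdef
    have hs : ((0, 0, 0, 0) : Lb) ∈ Y := ⟨_, h1, e0⟩
    have ht : ((1, 0, 0, 0) : Lb) ∉ Y := by
      intro h
      apply h2
      rw [← mem_labs hn, e1]
      exact h
    have hY : ∀ a ∈ Y, a ∈ vs V := fun a ha => labs_subset ha
    have h5 := lower (E := E) hV hY ht
    have h6 := blue_card hV hs hY
    have hA : ∀ v ∈ chosen V Y, v ∈ V := fun v hv => (mem_chosen.1 hv).1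
    have h7 := card_FF V hV E _ hA
    have h8 := card_QQ_le E (chosen V Y)
    have h9 : (chosen V Y).card ≤ V.length := by omega
    have h10 : k ≤ (chosen V Y).card := by omega
    have h11 := numeric h9 h10 h7 h8 (by unfold rb at h3; omega)
    exact ⟨chosen V Y, hA, h11.1, h11.2⟩

theorem gR_matrix (V : List ℕ) (E : List (ℕ × ℕ)) :
    adjMatrix (gR V E) = (vs V).map (fun a => (vs V).map (fun b => red E a b)) :=
  adjMatrix_listGraph _ _ _ _

theorem gB_matrix (V : List ℕ) :
    adjMatrix (gB V) = (vs V).map (fun a => (vs V).map (fun b => blue a b)) :=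
  adjMatrix_listGraph _ _ _ _

theorem disjoint_g (V : List ℕ) (E : List (ℕ × ℕ)) : Disjoint (gR V E) (gB V) := by
  rw [disjoint_iff]
  ext i j
  simp only [SimpleGraph.inf_adj, SimpleGraph.bot_adj, iff_false]
  exact disj E _ _

theorem main_iff (I : (List ℕ × List (ℕ × ℕ)) × ℕ) (hI : IsGraph I.1.1 I.1.2 ∧ 2 ≤ I.2) :
    CLIQUE I ↔ RedBlueSTCut (inst I) := by
  obtain ⟨⟨V, E⟩, k⟩ := I
  obtain ⟨hG, hk2⟩ := hI
  simp only at hG hk2
  have hcl : CLIQUE ((V, E), k) ↔ HasClique V E k := ⟨fun h => h.2, fun h => ⟨hG, h⟩⟩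
  rw [hcl]
  unfold inst
  by_cases hk : k ≤ V.length
  · simp only [if_pos hk]
    rw [correct hG.1 hk]
    constructor
    · rintro ⟨X, h⟩
      refine ⟨_, gR V E, gB V, ⟨0, idx0 V⟩, ⟨1, idx1 V⟩, ?_, rfl, disjoint_g V E, ?_, X, h⟩
      · rw [gR_matrix, gB_matrix]
      · intro h
        have := congrArg Fin.val h
        simp at this
    · rintro ⟨n, R, B, s, t, h1, h2, h3, h4, X, h5⟩
      simp only [Prod.mk.injEq] at h1 h2
      rw [← gR_matrix, ← gB_matrix] at h1
      have hn : (vs V).length = n := by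
        have := congrArg List.length h1.1
        simpa [adjMatrix] using this
      subst hn
      have h6 := adjMatrix_inj h1.1
      have h7 := adjMatrix_inj h1.2
      have h8 : s = ⟨0, idx0 V⟩ := Fin.ext h2.1.symm
      have h9 : t = ⟨1, idx1 V⟩ := Fin.ext h2.2.symm
      subst h6 h7 h8 h9
      exact ⟨X, h5⟩
  · simp only [if_neg hk]
    constructor
    · rintro ⟨A, h1, h2, _⟩
      exfalso
      have h3 : A ⊆ V.toFinset := fun v hv => List.mem_toFinset.2 (h1 v hv)
      have h4 := Finset.card_le_card h3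
      rw [List.toFinset_card_of_nodup hG.1] at h4
      omega
    · rintro ⟨n, R, B, s, t, h1, h2, h3, h4, X, h5⟩
      exfalso
      simp only [Prod.mk.injEq] at h2
      exact h4 (Fin.ext (h2.1.symm.trans h2.2))

theorem valid_poly {α : Type} [TEnc α] {E : α → List (ℕ × ℕ)} {a : α → Lb} (h1 : Poly E)
    (h2 : Poly a) : Poly (fun x => valid (E x) (a x)) := by
  unfold valid
  fun_prop

attribute [fun_prop] valid_poly

theorem rh_poly {α : Type} [TEnc α] {E : α → List (ℕ × ℕ)} {a b : α → Lb} (h1 : Poly E)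
    (h2 : Poly a) (h3 : Poly b) : Poly (fun x => rh (E x) (a x) (b x)) := by
  unfold rh
  fun_prop

attribute [fun_prop] rh_poly

theorem red_poly {α : Type} [TEnc α] {E : α → List (ℕ × ℕ)} {a b : α → Lb} (h1 : Poly E)
    (h2 : Poly a) (h3 : Poly b) : Poly (fun x => red (E x) (a x) (b x)) := by
  unfold red
  fun_prop

theorem blue_poly {α : Type} [TEnc α] {a b : α → Lb}
    (h2 : Poly a) (h3 : Poly b) : Poly (fun x => blue (a x) (b x)) := by
  unfold blue
  fun_prop

attribute [fun_prop] red_poly blue_poly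

theorem vs_poly {α : Type} [TEnc α] {V : α → List ℕ} (h1 : Poly V) : Poly (fun x => vs (V x)) := by
  unfold vs
  fun_prop

attribute [fun_prop] vs_poly
attribute [local irreducible] vs red blue

theorem inst_poly : Poly inst := by
  unfold inst rb
  fun_prop

/-- the hardness of the undirected `s`-`t` problem -/
theorem hardI : HardI RedBlueSTCut := (hardPr_CLIQUE.trans (Pr' := fun _ => True) inst_poly
  (fun _ _ => trivial) (fun I hI => main_iff I hI)).toHardI

end

end Pool.Agent.Y599.RB.Und
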